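import Pool.Agent.H2.G1.Stmts

set_option linter.unusedVariables false
set_option maxHeartbeats 4000000

open Finset

namespace Pool.Agent.H2.G1

open Pool.Agent.H95.G1 Pool.Agent.H95.TB

lemma nv0_pos (b : Bool) : 0 < nv b 0 := by
  cases b <;> simp [nv]

lemma nv1_eq (b : Bool) : nv b 1 = 1 := by simp [nv]
lemma nv2_eq (b : Bool) : nv b 2 = 1 := by simp [nv]

lemma w_eq (d : ED) : d.w = nv d.b 0 * d.be 0 + d.be 1 + d.be 2 := by
  simp [ED.w, Fin.sum_univ_three, nv1_eq, nv2_eq]

lemma w0_eq (d : ED) : d.w0 = nv d.b 0 * d.al 0 + d.al 1 + d.al 2 := by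
  simp [ED.w0, Fin.sum_univ_three, nv1_eq, nv2_eq]

/-- uniqueness of cuts -/
lemma cut_aux (n : ℝ) (hn : 0 < n) (a0 a1 a2 b0 b1 b2 a0' a1' a2' b0' b1' b2' : ℝ)
    (ha0 : 0 ≤ a0) (ha1 : 0 ≤ a1) (ha2 : 0 ≤ a2) (hb0 : 0 ≤ b0) (hb1 : 0 ≤ b1) (hb2 : 0 ≤ b2)
    (ha0' : 0 ≤ a0') (ha1' : 0 ≤ a1') (ha2' : 0 ≤ a2') (hb0' : 0 ≤ b0') (hb1' : 0 ≤ b1') (hb2' : 0 ≤ b2')
    (h0 : a0 + b0 = a0' + b0') (h1 : a1 + b1 = a1' + b1') (h2 : a2 + b2 = a2' + b2')
    (c10 : a1 = 0 ∨ b0 = 0) (c20 : a2 = 0 ∨ b0 = 0) (c21 : a2 = 0 ∨ b1 = 0)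
    (c10' : a1' = 0 ∨ b0' = 0) (c20' : a2' = 0 ∨ b0' = 0) (c21' : a2' = 0 ∨ b1' = 0)
    (hs : n * b0 + b1 + b2 = n * b0' + b1' + b2') :
    b0 = b0' ∧ b1 = b1' ∧ b2 = b2' := by
  have key : b0 = b0' := by
    rcases lt_trichotomy b0 b0' with h | h | h
    · exfalso
      have hb : b0' ≠ 0 := by intro h'; linarith
      have h1' : a1' = 0 := by tauto
      have h2' : a2' = 0 := by tauto
      nlinarith
    · exact h
    · exfalso
      have hb : b0 ≠ 0 := by intro h'; linarith
      have h1' : a1 = 0 := by tauto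
      have h2' : a2 = 0 := by tauto
      nlinarith
  subst key
  have key1 : b1 = b1' := by
    rcases lt_trichotomy b1 b1' with h | h | h
    · exfalso
      have hb : b1' ≠ 0 := by intro h'; linarith
      have h2' : a2' = 0 := by tauto
      linarith
    · exact h
    · exfalso
      have hb : b1 ≠ 0 := by intro h'; linarith
      have h2' : a2 = 0 := by tauto
      linarith
  subst key1
  refine ⟨rfl, rfl, by linarith⟩

lemma chain_or (d : ED) (h : Valid d) (y y' : Fin 3) (hy : y' < y) : d.al y = 0 ∨ d.be y' = 0 := by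
  by_contra hc
  push Not at hc
  have h1 : 0 < d.al y := lt_of_le_of_ne (h.al0 y) (Ne.symm hc.1)
  have h2 : 0 < d.be y' := lt_of_le_of_ne (h.be0 y') (Ne.symm hc.2)
  exact absurd (h.chain y y' h1 h2) (not_le.2 hy)

lemma fin3_ext {f g : Fin 3 → ℝ} (h0 : f 0 = g 0) (h1 : f 1 = g 1) (h2 : f 2 = g 2) : f = g := by
  funext y
  fin_cases y
  · exact h0
  · exact h1
  · exact h2

lemma c_hh (d : ED) (hp : d.p < 1) (y : Fin 3) : d.al y + d.be y = (1 - d.p) * hh d y := by
  have : (1 - d.p) ≠ 0 := by linarith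
  unfold hh ED.c
  field_simp

theorem mag : MAG := by
  intro d d' l hv hv' hb hp hp' hh' hl e1 e2
  have a0 := hv.al0 0
  have a1 := hv.al0 1
  have a2 := hv.al0 2
  have b0 := hv.be0 0
  have b1 := hv.be0 1
  have b2 := hv.be0 2
  have a0' := hv'.al0 0
  have a1' := hv'.al0 1
  have a2' := hv'.al0 2
  have b0' := hv'.be0 0
  have b1' := hv'.be0 1
  have b2' := hv'.be0 2
  have q0 := hv.p0
  have q0' := hv'.p0
  have s := hv.sum
  have s' := hv'.sum
  have k0 := c_hh d hp 0
  have k1 := c_hh d hp 1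
  have k2 := c_hh d hp 2
  have k0' := c_hh d' hp' 0
  have k1' := c_hh d' hp' 1
  have k2' := c_hh d' hp' 2
  rw [← hh'] at k0' k1' k2'
  have W1 := w_eq d
  have W0 := w0_eq d
  have W1' := w_eq d'
  have W0' := w0_eq d'
  rw [← hb] at W1' W0'
  have hn := nv0_pos d.b
  set n := nv d.b 0 with hndef
  set h0 := hh d 0
  set h1 := hh d 1
  set h2 := hh d 2
  -- the total length
  set W := n * h0 + h1 + h2 with hW
  have T1 : d.w + d.w0 = (1 - d.p) * W := by
    rw [W1, W0, hW]; linear_combination n * k0 + k1 + k2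
  have T1' : d'.w + d'.w0 = (1 - d'.p) * W := by
    rw [W1', W0', hW]; linear_combination n * k0' + k1' + k2'
  have w0 : 0 ≤ d.w := by rw [W1]; positivity
  have w00 : 0 ≤ d.w0 := by rw [W0]; positivity
  have w0' : 0 ≤ d'.w := by rw [W1']; positivity
  have w00' : 0 ≤ d'.w0 := by rw [W0']; positivity
  have sumh : h0 + h1 + h2 = 1 := by
    have : (1 - d.p) * (h0 + h1 + h2) = 1 - d.p := by linear_combination s - k0 - k1 - k2
    have h1p : (1 - d.p) ≠ 0 := by linarith
    exact mul_left_cancel₀ h1p (by rw [this, mul_one])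
  have hp1 : 0 < 1 - d.p := by linarith
  have hp1' : 0 < 1 - d'.p := by linarith
  have nh0 : 0 ≤ h0 := by
    have : 0 ≤ (1 - d.p) * h0 := by rw [← k0]; positivity
    exact nonneg_of_mul_nonneg_right this hp1
  have nh1 : 0 ≤ h1 := by
    have : 0 ≤ (1 - d.p) * h1 := by rw [← k1]; positivity
    exact nonneg_of_mul_nonneg_right this hp1
  have nh2 : 0 ≤ h2 := by
    have : 0 ≤ (1 - d.p) * h2 := by rw [← k2]; positivity
    exact nonneg_of_mul_nonneg_right this hp1
  have Wpos : 0 < W := by
    rw [hW]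
    rcases nh0.eq_or_lt with h | h
    · rw [← h]; rw [← h] at sumh; nlinarith
    · have : 0 < n * h0 := mul_pos hn h
      linarith
  have cross : (d'.p + d'.w / 2) * (d.w0 + d.w / 2) = (d.p + d.w / 2) * (d'.w0 + d'.w / 2) := by
    rw [e1, e2]; ring
  -- the case of positive p
  have pos_al : ∀ e : ED, Valid e → 0 < e.p → e.al 0 = 0 ∧ e.al 1 = 0 ∧ e.al 2 = 0 := fun e he hpe =>
    ⟨he.cone hpe 0, he.cone hpe 1, he.cone hpe 2⟩
  have pE : d.p = d'.p := by
    rcases q0.eq_or_lt with hz | hz
    · rcases q0'.eq_or_lt with hz' | hz'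
      · rw [← hz, ← hz']
      · exfalso
        obtain ⟨z0, z1, z2⟩ := pos_al d' hv' hz'
        have : d'.w0 = 0 := by rw [W0', z0, z1, z2]; ring
        rw [← hz] at T1 cross
        rw [this] at T1' cross
        have hw' : 0 < d'.w := by
          have := mul_pos hp1' Wpos
          linarith
        have hu : 0 < d.w0 + d.w / 2 := by nlinarith
        nlinarith [mul_pos hz' hu]
    · obtain ⟨z0, z1, z2⟩ := pos_al d hv hz
      have z : d.w0 = 0 := by rw [W0, z0, z1, z2]; ring
      rw [z] at T1 cross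
      have hw : 0 < d.w := by
        have := mul_pos hp1 Wpos
        linarith
      rcases q0'.eq_or_lt with hz' | hz'
      · exfalso
        rw [← hz'] at T1' cross
        have hu : 0 < d'.w0 + d'.w / 2 := by nlinarith
        nlinarith [mul_pos hz hu]
      · obtain ⟨z0', z1', z2'⟩ := pos_al d' hv' hz'
        have z' : d'.w0 = 0 := by rw [W0', z0', z1', z2']; ring
        rw [z'] at T1' cross
        have f1 : d.w = (1 - d.p) * W := by linarith
        have f2 : d'.w = (1 - d'.p) * W := by linarith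
        have : d'.p * d.w = d.p * d'.w := by linear_combination 2 * cross
        rw [f1, f2] at this
        have h3 : (d'.p * (1 - d.p) - d.p * (1 - d'.p)) * W = 0 := by linear_combination this
        rcases mul_eq_zero.1 h3 with h4 | h4
        · linarith
        · exact absurd h4 Wpos.ne'
  have wE : d.w = d'.w := by
    rcases q0.eq_or_lt with hz | hz
    · have hz' : d'.p = 0 := by rw [← pE, ← hz]
      rw [hz'] at T1' cross
      rw [← hz] at T1 cross
      have f1 : d.w0 = W - d.w := by linarith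
      have f2 : d'.w0 = W - d'.w := by linarith
      rw [f1, f2] at cross
      have : (d'.w - d.w) * W = 0 := by linear_combination 2 * cross
      rcases mul_eq_zero.1 this with h4 | h4
      · linarith
      · exact absurd h4 Wpos.ne'
    · obtain ⟨z0, z1, z2⟩ := pos_al d hv hz
      obtain ⟨z0', z1', z2'⟩ := pos_al d' hv' (by rw [← pE]; exact hz)
      have z : d.w0 = 0 := by rw [W0, z0, z1, z2]; ring
      have z' : d'.w0 = 0 := by rw [W0', z0', z1', z2']; ring
      rw [z] at T1
      rw [z', ← pE] at T1'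
      linarith
  have w0E : d.w0 = d'.w0 := by
    rw [← pE, ← wE] at T1'
    linarith
  have upos : 0 < d.w0 + d.w / 2 := by nlinarith [mul_pos hp1 Wpos]
  have lE : l = 1 := by
    rw [← w0E, ← wE] at e2
    have : (l - 1) * (d.w0 + d.w / 2) = 0 := by linarith
    rcases mul_eq_zero.1 this with h4 | h4
    · linarith
    · exact absurd h4 upos.ne'
  rw [← pE, ← k0] at k0'
  rw [← pE, ← k1] at k1'
  rw [← pE, ← k2] at k2'
  have hs : n * d.be 0 + d.be 1 + d.be 2 = n * d'.be 0 + d'.be 1 + d'.be 2 := by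
    rw [← W1, ← W1', wE]
  obtain ⟨r0, r1, r2⟩ := cut_aux n hn _ _ _ _ _ _ _ _ _ _ _ _ a0 a1 a2 b0 b1 b2 a0' a1' a2' b0' b1' b2'
    k0'.symm k1'.symm k2'.symm (chain_or d hv 1 0 (by decide)) (chain_or d hv 2 0 (by decide))
    (chain_or d hv 2 1 (by decide)) (chain_or d' hv' 1 0 (by decide)) (chain_or d' hv' 2 0 (by decide))
    (chain_or d' hv' 2 1 (by decide)) hs
  exact ⟨pE.symm, fin3_ext (by linarith) (by linarith) (by linarith),
    fin3_ext r0.symm r1.symm r2.symm, lE⟩

/-- existence of cuts -/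
lemma cut_exists (n : ℝ) (hn : 0 < n) (h : Fin 3 → ℝ) (hh : ∀ y, 0 ≤ h y) (X : ℝ) (hX : 0 ≤ X)
    (hXW : X ≤ n * h 0 + h 1 + h 2) :
    ∃ a b : Fin 3 → ℝ, (∀ y, 0 ≤ a y) ∧ (∀ y, 0 ≤ b y) ∧ (∀ y, a y + b y = h y) ∧
      (∀ y y', 0 < a y → 0 < b y' → y ≤ y') ∧ n * a 0 + a 1 + a 2 = X := by
  have g0 := hh 0
  have g1 := hh 1
  have g2 := hh 2
  rcases le_total X (n * h 0) with h1 | h1
  · refine ⟨![X / n, 0, 0], ![h 0 - X / n, h 1, h 2], ?_, ?_, ?_, ?_, ?_⟩
    · intro y; fin_cases y <;> simp; positivity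
    · intro y
      fin_cases y
      · simp only [Fin.zero_eta, Matrix.cons_val_zero, sub_nonneg]
        rw [div_le_iff₀ hn]; linarith
      · exact g1
      · exact g2
    · intro y; fin_cases y <;> simp
    · intro y y' hy hy'
      fin_cases y <;> fin_cases y' <;> simp_all
    · simp; field_simp
  · rcases le_total X (n * h 0 + h 1) with h2 | h2
    · refine ⟨![h 0, X - n * h 0, 0], ![0, h 1 - (X - n * h 0), h 2], ?_, ?_, ?_, ?_, ?_⟩
      · intro y
        fin_cases y
        · exact g0
        · simp; linarith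
        · simp
      · intro y
        fin_cases y
        · simp
        · simp; linarith
        · exact g2
      · intro y; fin_cases y <;> simp
      · intro y y' hy hy'
        fin_cases y <;> fin_cases y' <;> simp_all
      · simp
    · refine ⟨![h 0, h 1, X - n * h 0 - h 1], ![0, 0, h 2 - (X - n * h 0 - h 1)], ?_, ?_, ?_, ?_, ?_⟩
      · intro y
        fin_cases y
        · exact g0
        · exact g1
        · simp; linarith
      · intro y
        fin_cases y
        · simp
        · simp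
        · simp; linarith
      · intro y; fin_cases y <;> simp
      · intro y y' hy hy'
        fin_cases y <;> fin_cases y' <;> simp_all
      · simp

theorem mags : MAGS := by
  intro b h r hS hr
  obtain ⟨hnn, hsum⟩ := hS
  have g0 := hnn 0
  have g1 := hnn 1
  have g2 := hnn 2
  rw [Fin.sum_univ_three] at hsum
  have hn := nv0_pos b
  set n := nv b 0 with hndef
  set W := n * h 0 + h 1 + h 2 with hW
  have Wpos : 0 < W := by
    rw [hW]
    rcases g0.eq_or_lt with h' | h'
    · rw [← h']; rw [← h'] at hsum; nlinarith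
    · have : 0 < n * h 0 := mul_pos hn h'
      linarith
  rcases le_total 1 r with h1 | h1
  · set K := (r - 1) * W / 2 with hK
    have Knn : 0 ≤ K := by
      rw [hK]
      have : 0 ≤ r - 1 := by linarith
      positivity
    have K1 : 0 < 1 + K := by linarith
    have hq : 1 - K / (1 + K) = 1 / (1 + K) := by field_simp; ring
    have hq0 : 0 < 1 - K / (1 + K) := by rw [hq]; positivity
    set p := K / (1 + K) with hp
    have pnn : 0 ≤ p := by rw [hp]; positivity
    have hpK : p = (1 - p) * K := by rw [hq, hp]; ring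
    refine ⟨{ b := b, al := fun _ => 0, be := fun y => (1 - p) * h y, p := p, T := 0 }, ?_, rfl, ?_, rfl, ?_, ?_, ?_⟩
    · refine ⟨fun y => le_refl _, fun y => mul_nonneg hq0.le (hnn y), pnn, ?_, ?_, ?_⟩
      · simp only
        linear_combination (1 - p) * hsum
      · intro y y' hy; exact absurd hy (lt_irrefl _)
      · intro _ y; rfl
    · simp only; linarith
    · funext y
      simp only [hh, ED.c, zero_add]
      field_simp
    · rw [w_eq, w0_eq]
      simp only
      have : 0 < (1 - p) * W := mul_pos hq0 Wpos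
      rw [hW] at this
      linarith
    · rw [w_eq, w0_eq]
      simp only
      have : p = (1 - p) * ((r - 1) * (n * h 0 + h 1 + h 2) / 2) := by rw [← hW, ← hK]; exact hpK
      linear_combination this
  · set w := 2 * r * W / (1 + r) with hw
    have r1 : 0 < 1 + r := by linarith
    have wnn : 0 ≤ w := by rw [hw]; positivity
    have wle : w ≤ W := by
      rw [hw, div_le_iff₀ r1]
      nlinarith
    have hwr : w * (1 + r) = 2 * r * W := by rw [hw]; field_simp
    obtain ⟨a, be, an, bn, ab, ch, hX⟩ := cut_exists n hn h hnn (W - w) (by linarith) (by linarith)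
    have ab0 := ab 0
    have ab1 := ab 1
    have ab2 := ab 2
    have hbw : n * be 0 + be 1 + be 2 = w := by
      have : n * (a 0 + be 0) + (a 1 + be 1) + (a 2 + be 2) = W := by rw [ab0, ab1, ab2]
      linarith
    refine ⟨{ b := b, al := a, be := be, p := 0, T := 0 }, ?_, rfl, ?_, rfl, ?_, ?_, ?_⟩
    · refine ⟨an, bn, le_refl _, ?_, ch, ?_⟩
      · simp only; linarith
      · intro h'; exact absurd h' (lt_irrefl _)
    · simp only; norm_num
    · funext y
      simp only [hh, ED.c, ab y]
      simp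
    · rw [w_eq, w0_eq]
      simp only
      rw [← hndef, hX, hbw]
      linarith
    · rw [w_eq, w0_eq]
      simp only
      rw [← hndef, hX, hbw]
      linarith

end Pool.Agent.H2.G1
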